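import Pool.Agent.Y184.SP.Base

set_option autoImplicit false

/-!
# The regularised maximum
-/

open Set Topology Filter
open scoped ContDiff

namespace Pool.Agent.Y625.SP

open Pool.Agent.Y184.SP

theorem max_st_add (x : ℝ) : Real.smoothTransition x + Real.smoothTransition (1 - x) = 1 := by
  unfold Real.smoothTransition
  have h1 := Real.smoothTransition.pos_denom x
  rw [sub_sub_cancel, add_comm (expNegInvGlue (1 - x)) (expNegInvGlue x), ← add_div]
  exact div_self h1.ne'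

/-- the derivative of the regularised maximum -/
noncomputable def mS (r : ℝ) : ℝ := Real.smoothTransition ((r + 1) / 2)

/-- the regularised maximum of `r` and `0` -/
noncomputable def mM (r : ℝ) : ℝ := ∫ s in (-1 : ℝ)..r, mS s

theorem mS_contDiff : ContDiff ℝ ∞ mS :=
  Real.smoothTransition.contDiff.comp ((contDiff_id.add contDiff_const).div_const 2)

theorem mM_deriv (r : ℝ) : HasDerivAt mM (mS r) r :=
  (mS_contDiff.continuous.integral_hasStrictDerivAt (-1) r).hasDerivAt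

theorem mM_contDiff : ContDiff ℝ ∞ mM := by
  rw [contDiff_infty_iff_deriv]
  refine ⟨fun r => (mM_deriv r).differentiableAt, ?_⟩
  have : deriv mM = mS := funext fun r => (mM_deriv r).deriv
  rw [this]
  exact mS_contDiff

theorem mM_neg {r : ℝ} (hr : r ≤ -1) : mM r = 0 := by
  unfold mM
  have h : ∀ s ∈ uIcc (-1 : ℝ) r, mS s = 0 := by
    intro s hs
    rw [uIcc_of_ge hr] at hs
    exact Real.smoothTransition.zero_of_nonpos (by linarith [hs.2])
  rw [intervalIntegral.integral_congr h]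
  simp

theorem mM_sub (r : ℝ) : mM r - mM (-r) = r := by
  have h1 : ∀ r, HasDerivAt (fun r => mM r - mM (-r) - r) 0 r := by
    intro r
    have h2 : HasDerivAt (fun r => mM (-r)) (mS (-r) * (-1)) r :=
      (mM_deriv (-r)).comp r (hasDerivAt_neg r)
    have h3 := ((mM_deriv r).sub h2).sub (hasDerivAt_id r)
    have h4 : mS r - mS (-r) * (-1) - 1 = 0 := by
      have := max_st_add ((r + 1) / 2)
      have e : (1 : ℝ) - (r + 1) / 2 = (-r + 1) / 2 := by ring
      rw [e] at this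
      unfold mS
      linarith
    rw [h4] at h3
    exact h3
  have h2 := is_const_of_deriv_eq_zero (f := fun r => mM r - mM (-r) - r)
    (fun r => (h1 r).differentiableAt) (fun r => (h1 r).deriv) r 0
  simp only [neg_zero, sub_self] at h2
  linarith

theorem mM_pos {r : ℝ} (hr : 1 ≤ r) : mM r = r := by
  have h1 := mM_sub r
  rw [mM_neg (r := -r) (by linarith)] at h1
  linarith

theorem mS_nonneg (r : ℝ) : 0 ≤ mS r := Real.smoothTransition.nonneg _

theorem mS_le_one (r : ℝ) : mS r ≤ 1 := Real.smoothTransition.le_one _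

theorem mS_mono : Monotone mS := fun a b h => Real.smoothTransition.monotone (by linarith)

theorem lapline {L : ℂ → ℝ} (hL : ContDiffAt ℝ 2 L 0) (e : ℂ) {ψ : ℝ → ℝ} {c : ℝ}
    (h1 : ∀ᶠ t in 𝓝 (0 : ℝ), HasDerivAt (fun s : ℝ => L (s • e)) (ψ t) t)
    (h2 : HasDerivAt ψ c 0) : iteratedFDeriv ℝ 2 L 0 ![e, e] = c := by
  rw [iteratedFDeriv_two_apply]
  simp only [Matrix.cons_val_zero, Matrix.cons_val_one]
  have hdiff : ∀ᶠ ζ in 𝓝 (0 : ℂ), DifferentiableAt ℝ L ζ := by
    have h := hL.eventually (by simp)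
    filter_upwards [h] with ζ hζ
    exact hζ.differentiableAt (by norm_num)
  have hf : DifferentiableAt ℝ (fderiv ℝ L) 0 := by
    have : ContDiffAt ℝ 1 (fderiv ℝ L) 0 := hL.fderiv_right (by norm_num)
    exact this.differentiableAt (by norm_num)
  have hline : ∀ t : ℝ, HasDerivAt (fun s : ℝ => s • e) e t := by
    intro t
    simpa using (hasDerivAt_id t).smul_const e
  have ht0 : Tendsto (fun s : ℝ => s • e) (𝓝 0) (𝓝 (0 : ℂ)) := by
    have := (hline 0).continuousAt.tendsto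
    simpa using this
  have h3 : ψ =ᶠ[𝓝 0] fun t => fderiv ℝ L (t • e) e := by
    filter_upwards [h1, ht0.eventually hdiff] with t ht htd
    have h4 : HasDerivAt (fun s : ℝ => L (s • e)) (fderiv ℝ L (t • e) e) t :=
      htd.hasFDerivAt.comp_hasDerivAt t (hline t)
    exact ht.unique h4
  have h5 : HasDerivAt (fun t : ℝ => fderiv ℝ L (t • e) e) (fderiv ℝ (fderiv ℝ L) 0 e e) 0 := by
    have h6 : HasFDerivAt (fderiv ℝ L) (fderiv ℝ (fderiv ℝ L) 0) ((0 : ℝ) • e) := by
      rw [zero_smul]; exact hf.hasFDerivAt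
    have h7 : HasDerivAt (fun t : ℝ => fderiv ℝ L (t • e)) (fderiv ℝ (fderiv ℝ L) 0 e) 0 :=
      h6.comp_hasDerivAt (0 : ℝ) (hline 0)
    have h8 := (ContinuousLinearMap.apply ℝ ℝ e).hasFDerivAt.comp_hasDerivAt (0 : ℝ) h7
    exact h8
  exact ((h2.congr_of_eventuallyEq h3.symm).unique h5).symm

/-- the first and second derivative of a function along a line -/
theorem exline {L : ℂ → ℝ} (hL : ContDiffAt ℝ 2 L 0) (e : ℂ) : ∃ (ψ : ℝ → ℝ) (c : ℝ),
    (∀ᶠ t in 𝓝 (0 : ℝ), HasDerivAt (fun s : ℝ => L (s • e)) (ψ t) t) ∧ HasDerivAt ψ c 0 ∧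
      iteratedFDeriv ℝ 2 L 0 ![e, e] = c := by
  have h1 : ContDiffAt ℝ 2 (fun s : ℝ => L (s • e)) 0 := by
    have h2 : ContDiffAt ℝ 2 L ((0 : ℝ) • e) := by rw [zero_smul]; exact hL
    exact h2.comp (0 : ℝ) (contDiffAt_id.smul contDiffAt_const)
  have h3 : ∀ᶠ t in 𝓝 (0 : ℝ), HasDerivAt (fun s : ℝ => L (s • e))
      (deriv (fun s : ℝ => L (s • e)) t) t := by
    filter_upwards [h1.eventually (by simp)] with t ht
    exact (ht.differentiableAt (by norm_num)).hasDerivAt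
  have h4 : DifferentiableAt ℝ (deriv (fun s : ℝ => L (s • e))) 0 := by
    have h5 : ContDiffAt ℝ 1 (fderiv ℝ (fun s : ℝ => L (s • e))) 0 := h1.fderiv_right (by norm_num)
    have h6 : DifferentiableAt ℝ (fderiv ℝ (fun s : ℝ => L (s • e))) 0 :=
      h5.differentiableAt (by norm_num)
    have h7 : DifferentiableAt ℝ (fun t => fderiv ℝ (fun s : ℝ => L (s • e)) t 1) 0 :=
      h6.clm_apply (differentiableAt_const _)
    exact h7
  exact ⟨_, _, h3, h4.hasDerivAt, lapline hL e h3 h4.hasDerivAt⟩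

/-- the second derivative along a line of the regularised maximum -/
theorem max_line {F H : ℂ → ℝ} (hF : ContDiffAt ℝ 2 F 0) (hH : ContDiffAt ℝ 2 H 0) (e : ℂ) :
    (1 - mS (F 0 - H 0)) * iteratedFDeriv ℝ 2 H 0 ![e, e] +
      mS (F 0 - H 0) * iteratedFDeriv ℝ 2 F 0 ![e, e] ≤
    iteratedFDeriv ℝ 2 (fun ζ => H ζ + mM (F ζ - H ζ)) 0 ![e, e] := by
  obtain ⟨ψ, c, a1, a2, a3⟩ := exline hF e
  obtain ⟨χ, d, b1, b2, b3⟩ := exline hH e
  have hC : ContDiffAt ℝ 2 (fun ζ => H ζ + mM (F ζ - H ζ)) 0 := by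
    have h1 : ContDiffAt ℝ 2 mM (F 0 - H 0) := mM_contDiff.contDiffAt.of_le
      (WithTop.coe_le_coe.2 (le_top : (2 : ℕ∞) ≤ ⊤))
    exact hH.add (ContDiffAt.comp (g := mM) (f := fun ζ => F ζ - H ζ) (0 : ℂ) h1 (hF.sub hH))
  have hS' : HasDerivAt mS (deriv mS (F 0 - H 0)) (F 0 - H 0) :=
    ((mS_contDiff.differentiable (by simp)) _).hasDerivAt
  have hSn : 0 ≤ deriv mS (F 0 - H 0) := mS_mono.deriv_nonneg
  have h1 : ∀ᶠ t in 𝓝 (0 : ℝ), HasDerivAt (fun s : ℝ => (fun ζ => H ζ + mM (F ζ - H ζ)) (s • e))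
      (χ t + mS (F (t • e) - H (t • e)) * (ψ t - χ t)) t := by
    filter_upwards [a1, b1] with t ht1 ht2
    have h3 : HasDerivAt (fun s : ℝ => mM (F (s • e) - H (s • e)))
        (mS (F (t • e) - H (t • e)) * (ψ t - χ t)) t :=
      (mM_deriv _).comp t (ht1.sub ht2)
    exact ht2.add h3
  have a1' := a1.self_of_nhds
  have b1' := b1.self_of_nhds
  have e0 : F ((0 : ℝ) • e) - H ((0 : ℝ) • e) = F 0 - H 0 := by rw [zero_smul]
  have h2 : HasDerivAt (fun t => χ t + mS (F (t • e) - H (t • e)) * (ψ t - χ t))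
      (d + (deriv mS (F 0 - H 0) * (ψ 0 - χ 0) * (ψ 0 - χ 0) +
        mS (F ((0 : ℝ) • e) - H ((0 : ℝ) • e)) * (c - d))) 0 := by
    have h3 : HasDerivAt (fun s : ℝ => mS (F (s • e) - H (s • e)))
        (deriv mS (F 0 - H 0) * (ψ 0 - χ 0)) 0 := by
      have h4 : HasDerivAt mS (deriv mS (F 0 - H 0)) (F ((0 : ℝ) • e) - H ((0 : ℝ) • e)) := by
        rw [e0]; exact hS'
      exact HasDerivAt.comp (h₂ := mS) (h := fun s : ℝ => F (s • e) - H (s • e)) (0 : ℝ) h4
        (a1'.sub b1')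
    exact b2.add (h3.mul (a2.sub b2))
  rw [lapline hC e h1 h2, a3, b3, e0]
  nlinarith [mul_nonneg hSn (mul_self_nonneg (ψ 0 - χ 0))]

/-- the regularised maximum -/
theorem max_thm : StMax := by
  refine ⟨mM, mM_contDiff, fun r hr => mM_neg hr, fun r hr => mM_pos hr, ?_⟩
  intro f g z v t hf hg htf htg
  have hl : ContDiffAt ℝ 2 (fun ζ : ℂ => z + ζ • v) 0 :=
    contDiffAt_const.add (contDiffAt_id.smul contDiffAt_const)
  have hf' : ContDiffAt ℝ 2 (fun ζ : ℂ => f (z + ζ • v)) 0 := by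
    have : ContDiffAt ℝ 2 f (z + (0 : ℂ) • v) := by rw [zero_smul, add_zero]; exact hf
    exact this.comp (0 : ℂ) hl
  have hg' : ContDiffAt ℝ 2 (fun ζ : ℂ => g (z + ζ • v)) 0 := by
    have : ContDiffAt ℝ 2 g (z + (0 : ℂ) • v) := by rw [zero_smul, add_zero]; exact hg
    exact this.comp (0 : ℂ) hl
  have k1 := max_line hf' hg' 1
  have k2 := max_line hf' hg' Complex.I
  unfold lev at htf htg ⊢
  rw [InnerProductSpace.laplacian_eq_iteratedFDeriv_complexPlane] at htf htg ⊢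
  simp only at htf htg ⊢
  have s1 := mS_nonneg (f (z + (0 : ℂ) • v) - g (z + (0 : ℂ) • v))
  have s2 := mS_le_one (f (z + (0 : ℂ) • v) - g (z + (0 : ℂ) • v))
  have m1 := mul_le_mul_of_nonneg_left htf s1
  have m2 := mul_le_mul_of_nonneg_left htg (sub_nonneg.mpr s2)
  linarith

end Pool.Agent.Y625.SP
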