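import Pool.Agent.Y184.SP.Base3
import Pool.Agent.Y625.SP.Max

set_option autoImplicit false

/-!
# Calculus of the Levi form
-/

open Set Topology Filter
open scoped ContDiff

namespace Pool.Agent.Y625.SP

open Pool.Agent.Y184.SP

/-- the Laplacian of `ρ ∘ f` for a holomorphic disc `f` -/
theorem lap_disc {ρ : E → ℝ} {f : ℂ → E} (hf : ContDiffAt ℂ ω f 0) (hρ : ContDiffAt ℝ 2 ρ (f 0)) :
    Laplacian.laplacian (fun ζ : ℂ => ρ (f ζ)) 0 =
      fderiv ℝ (fderiv ℝ ρ) (f 0) (deriv f 0) (deriv f 0) +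
      fderiv ℝ (fderiv ℝ ρ) (f 0) (Complex.I • deriv f 0) (Complex.I • deriv f 0) := by
  have hfa : AnalyticAt ℂ f 0 := by
    rw [← contDiffWithinAt_univ, contDiffWithinAt_omega_iff_analyticWithinAt,
      analyticWithinAt_univ] at hf
    exact hf
  have hfR : ContDiffAt ℝ 2 f 0 := (hf.of_le le_top).restrict_scalars ℝ
  have hL : ContDiffAt ℝ 2 (fun ζ : ℂ => ρ (f ζ)) 0 := hρ.comp (0 : ℂ) hfR
  have hf1 : ∀ᶠ ζ in 𝓝 (0 : ℂ), HasDerivAt f (deriv f ζ) ζ := by
    filter_upwards [hfa.eventually_analyticAt] with ζ hζ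
    exact hζ.differentiableAt.hasDerivAt
  have hf2 : HasDerivAt (deriv f) (deriv (deriv f) 0) 0 := hfa.deriv.differentiableAt.hasDerivAt
  have hρ1 : ∀ᶠ ζ in 𝓝 (0 : ℂ), DifferentiableAt ℝ ρ (f ζ) := by
    have h := hρ.eventually (by simp)
    have h2 := hfa.continuousAt.tendsto.eventually h
    filter_upwards [h2] with ζ hζ
    exact hζ.differentiableAt (by norm_num)
  have hρ2 : HasFDerivAt (fderiv ℝ ρ) (fderiv ℝ (fderiv ℝ ρ) (f 0)) (f 0) := by
    have : ContDiffAt ℝ 1 (fderiv ℝ ρ) (f 0) := hρ.fderiv_right (by norm_num)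
    exact (this.differentiableAt (by norm_num)).hasFDerivAt
  have hline : ∀ (e : ℂ) (t : ℝ), HasDerivAt (fun s : ℝ => s • e) e t := by
    intro e t
    simpa using (hasDerivAt_id t).smul_const e
  have ht0 : ∀ e : ℂ, Tendsto (fun s : ℝ => s • e) (𝓝 0) (𝓝 (0 : ℂ)) := by
    intro e
    have := (hline e 0).continuousAt.tendsto
    simpa using this
  have main : ∀ e : ℂ, iteratedFDeriv ℝ 2 (fun ζ : ℂ => ρ (f ζ)) 0 ![e, e] =
      fderiv ℝ (fderiv ℝ ρ) (f 0) (e • deriv f 0) (e • deriv f 0) +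
        fderiv ℝ ρ (f 0) (e • (e • deriv (deriv f) 0)) := by
    intro e
    apply lapline hL e (ψ := fun s : ℝ => fderiv ℝ ρ (f (s • e)) (e • deriv f (s • e)))
    · filter_upwards [(ht0 e).eventually hf1, (ht0 e).eventually hρ1] with t h1 h2
      have h3 : HasDerivAt (fun s : ℝ => f (s • e)) (e • deriv f (t • e)) t :=
        HasDerivAt.scomp t h1 (hline e t)
      exact h2.hasFDerivAt.comp_hasDerivAt t h3
    · have e0 : (0 : ℝ) • e = 0 := zero_smul _ _
      have h1 : HasDerivAt (fun s : ℝ => f (s • e)) (e • deriv f 0) 0 := by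
        have h2 : HasDerivAt f (deriv f 0) ((0 : ℝ) • e) := by
          rw [e0]; exact hf1.self_of_nhds
        exact HasDerivAt.scomp (0 : ℝ) h2 (hline e 0)
      have h3 : HasDerivAt (fun s : ℝ => fderiv ℝ ρ (f (s • e)))
          (fderiv ℝ (fderiv ℝ ρ) (f 0) (e • deriv f 0)) 0 := by
        have h4 : HasFDerivAt (fderiv ℝ ρ) (fderiv ℝ (fderiv ℝ ρ) (f 0)) (f ((0 : ℝ) • e)) := by
          rw [e0]; exact hρ2
        exact h4.comp_hasDerivAt (0 : ℝ) h1
      have h5 : HasDerivAt (fun s : ℝ => e • deriv f (s • e)) (e • (e • deriv (deriv f) 0)) 0 := by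
        have h6 : HasDerivAt (deriv f) (deriv (deriv f) 0) ((0 : ℝ) • e) := by
          rw [e0]; exact hf2
        exact (HasDerivAt.scomp (0 : ℝ) h6 (hline e 0)).const_smul e
      have h7 := h3.clm_apply h5
      rw [e0] at h7
      exact h7
  rw [InnerProductSpace.laplacian_eq_iteratedFDeriv_complexPlane]
  simp only
  rw [main 1, main Complex.I]
  have h1 : Complex.I • (Complex.I • deriv (deriv f) 0) = -(deriv (deriv f) 0) := by
    rw [smul_smul, Complex.I_mul_I, neg_smul, one_smul]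
  rw [h1, one_smul, one_smul, one_smul, map_neg]
  ring

theorem line_an (z v : E) : ContDiffAt ℂ ω (fun ζ : ℂ => z + ζ • v) 0 :=
  contDiffAt_const.add (contDiffAt_id.smul contDiffAt_const)

theorem line_deriv (z v : E) : deriv (fun ζ : ℂ => z + ζ • v) 0 = v := by
  have h1 : HasDerivAt (fun ζ : ℂ => z + ζ • v) v 0 := by
    simpa using ((hasDerivAt_id (0 : ℂ)).smul_const v).const_add z
  exact h1.deriv

/-- the Levi form in terms of the second derivative -/
theorem lev_eq {ρ : E → ℝ} {z : E} (v : E) (hρ : ContDiffAt ℝ 2 ρ z) :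
    lev ρ z v = fderiv ℝ (fderiv ℝ ρ) z v v +
      fderiv ℝ (fderiv ℝ ρ) z (Complex.I • v) (Complex.I • v) := by
  have e0 : z + (0 : ℂ) • v = z := by rw [zero_smul, add_zero]
  have h := lap_disc (ρ := ρ) (line_an z v) (by
    rw [e0]; exact hρ)
  rw [line_deriv] at h
  change _ = fderiv ℝ (fderiv ℝ ρ) (z + (0 : ℂ) • v) v v +
      fderiv ℝ (fderiv ℝ ρ) (z + (0 : ℂ) • v) (Complex.I • v) (Complex.I • v) at h
  rw [e0] at h
  exact h

theorem comp_line {ρ : E → ℝ} {z : E} (v : E) (hρ : ContDiffAt ℝ 2 ρ z) :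
    ContDiffAt ℝ 2 (fun ζ : ℂ => ρ (z + ζ • v)) 0 := by
  have hl : ContDiffAt ℝ 2 (fun ζ : ℂ => z + ζ • v) 0 :=
    contDiffAt_const.add (contDiffAt_id.smul contDiffAt_const)
  have : ContDiffAt ℝ 2 ρ (z + (0 : ℂ) • v) := by rw [zero_smul, add_zero]; exact hρ
  exact this.comp (0 : ℂ) hl

/-- calculus of the Levi form -/
theorem lev_thm : StLev := by
  refine ⟨?_, ?_, ?_, ?_⟩
  · intro ρ f hf hρ
    rw [lap_disc hf hρ, lev_eq _ hρ]
  · intro ρ z v hρ
    have h2 : (2 : WithTop ℕ∞) ≤ ∞ := WithTop.coe_le_coe.2 (le_top : (2 : ℕ∞) ≤ ⊤)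
    have h1 : ∀ᶠ p in 𝓝 (z, v), lev ρ p.1 p.2 = fderiv ℝ (fderiv ℝ ρ) p.1 p.2 p.2 +
        fderiv ℝ (fderiv ℝ ρ) p.1 (Complex.I • p.2) (Complex.I • p.2) := by
      have h3 : ∀ᶠ p : E × E in 𝓝 (z, v), ContDiffAt ℝ ∞ ρ p.1 :=
        (continuous_fst.tendsto (z, v)).eventually hρ
      filter_upwards [h3] with p hp
      exact lev_eq _ (hp.of_le h2)
    have h4 : ContDiffAt ℝ 1 (fderiv ℝ ρ) z := (hρ.self_of_nhds.of_le h2).fderiv_right (by norm_num)
    have h5 : ContinuousAt (fderiv ℝ (fderiv ℝ ρ)) z := by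
      have h6 : ContDiffAt ℝ 0 (fderiv ℝ (fderiv ℝ ρ)) z := h4.fderiv_right (by norm_num)
      exact h6.continuousAt
    have h7 : ContinuousAt (fun p : E × E => fderiv ℝ (fderiv ℝ ρ) p.1) (z, v) :=
      ContinuousAt.comp (g := fderiv ℝ (fderiv ℝ ρ)) (f := fun p : E × E => p.1) h5
        continuousAt_fst
    have h8 : ContinuousAt (fun p : E × E => Complex.I • p.2) (z, v) :=
      Continuous.continuousAt (by fun_prop)
    have h9 : ContinuousAt (fun p : E × E => fderiv ℝ (fderiv ℝ ρ) p.1 p.2 p.2 +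
        fderiv ℝ (fderiv ℝ ρ) p.1 (Complex.I • p.2) (Complex.I • p.2)) (z, v) :=
      ((h7.clm_apply continuousAt_snd).clm_apply continuousAt_snd).add
        ((h7.clm_apply h8).clm_apply h8)
    exact h9.congr (h1.mono fun p hp => hp.symm)
  · intro ρ σ z v hρ hσ
    exact (comp_line v hρ).laplacian_add (comp_line v hσ)
  · intro ρ a z v hρ
    have h := InnerProductSpace.laplacian_smul a (comp_line v hρ)
    exact h

end Pool.Agent.Y625.SP
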