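import Pool.Agent.Y184.SP.Base

set_option autoImplicit false

/-!
# There is no elliptic function with one simple pole
-/

open Set Topology Filter
open scoped Interval

namespace Pool.Agent.Y625.SP

open Pool.Agent.Y184.SP

theorem res_int (a b : ℝ → ℂ) (u : ℂ) (F : ℂ → ℂ) (s : Set ℂ)
    (hF : ContinuousOn F s) (ha : Continuous a) (hb : Continuous b)
    (hab : ∀ x ∈ Icc (-(1 / 2) : ℝ) (1 / 2), a x ∈ s ∧ b x ∈ s)
    (h : ∀ x ∈ Icc (-(1 / 2) : ℝ) (1 / 2), F (a x) - F (b x) = u * ((x ^ 2 + 1 / 4)⁻¹ : ℝ)) :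
    (∫ x in (-(1 / 2) : ℝ)..(1 / 2), F (a x)) - ∫ x in (-(1 / 2) : ℝ)..(1 / 2), F (b x) =
      u * ((∫ x in (-(1 / 2) : ℝ)..(1 / 2), (x ^ 2 + 1 / 4)⁻¹ : ℝ) : ℂ) := by
  have hle : (-(1 / 2) : ℝ) ≤ 1 / 2 := by norm_num
  have h1 : IntervalIntegrable (fun x => F (a x)) MeasureTheory.volume (-(1 / 2)) (1 / 2) := by
    apply ContinuousOn.intervalIntegrable
    rw [uIcc_of_le hle]
    exact hF.comp ha.continuousOn fun x hx => (hab x hx).1
  have h2 : IntervalIntegrable (fun x => F (b x)) MeasureTheory.volume (-(1 / 2)) (1 / 2) := by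
    apply ContinuousOn.intervalIntegrable
    rw [uIcc_of_le hle]
    exact hF.comp hb.continuousOn fun x hx => (hab x hx).2
  rw [← intervalIntegral.integral_sub h1 h2, ← intervalIntegral.integral_ofReal,
    ← intervalIntegral.integral_const_mul]
  apply intervalIntegral.integral_congr
  intro x hx
  rw [uIcc_of_le hle] at hx
  exact h x hx

/-- there is no elliptic function with one simple pole -/
theorem res : StRes := by
  intro g hd hp ht
  set s : Set ℂ := {x | |x.re| < 1 ∧ |x.im| < 1} with hs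
  have hso : IsOpen s := by
    apply IsOpen.inter
    · exact isOpen_lt Complex.continuous_re.abs continuous_const
    · exact isOpen_lt Complex.continuous_im.abs continuous_const
  have hs0 : (0 : ℂ) ∈ s := by simp [hs]
  have hsn : s ∈ 𝓝 (0 : ℂ) := hso.mem_nhds hs0
  have hL : ∀ x ∈ s, x ≠ 0 → x ∉ Lam := by
    rintro x ⟨hx1, hx2⟩ hx0 ⟨m, n, rfl⟩
    simp only [Complex.add_re, Complex.intCast_re, Complex.mul_re, Complex.I_re, mul_zero,
      Complex.intCast_im, Complex.I_im, mul_one, sub_self, add_zero, Complex.add_im,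
      Complex.mul_im, zero_add] at hx1 hx2
    have h1 : m = 0 := by
      rw [← Int.cast_abs] at hx1
      have : |m| < 1 := by exact_mod_cast hx1
      exact Int.abs_lt_one_iff.mp this
    have h2 : n = 0 := by
      rw [← Int.cast_abs] at hx2
      have : |n| < 1 := by exact_mod_cast hx2
      exact Int.abs_lt_one_iff.mp this
    apply hx0
    rw [h1, h2]
    simp
  set F : ℂ → ℂ := Function.update (fun x => x * g x) 0 (-1) with hFdef
  have hF0 : F 0 = -1 := Function.update_self _ _ _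
  have hFx : ∀ x, x ≠ 0 → F x = x * g x := fun x hx => Function.update_of_ne hx _ _
  have hF : DifferentiableOn ℂ F s := by
    refine (Complex.differentiableOn_compl_singleton_and_continuousAt_iff hsn).mp ⟨?_, ?_⟩
    · intro x hx
      have hx0 : x ≠ 0 := hx.2
      have h1 : DifferentiableAt ℂ (fun x => x * g x) x :=
        differentiableAt_id.mul (hd x (hL x hx.1 hx0))
      have h2 : F =ᶠ[𝓝 x] fun x => x * g x := by
        filter_upwards [isOpen_ne.mem_nhds hx0] with y hy
        exact hFx y hy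
      exact (h1.congr_of_eventuallyEq h2).differentiableWithinAt
    · rw [hFdef, continuousAt_update_same]
      exact ht
  have hD : DifferentiableOn ℂ (dslope F 0) s := (Complex.differentiableOn_dslope hsn).mpr hF
  have hval : ∀ x, x ≠ 0 → dslope F 0 x = g x + x⁻¹ := by
    intro x hx
    rw [dslope_of_ne _ hx, slope_def_field, hFx x hx, hF0]
    field_simp
    ring
  have hsub : ([[(-(1 / 2) + -(1 / 2) * Complex.I : ℂ).re, (1 / 2 + 1 / 2 * Complex.I : ℂ).re]] ×ℂ
      [[(-(1 / 2) + -(1 / 2) * Complex.I : ℂ).im, (1 / 2 + 1 / 2 * Complex.I : ℂ).im]]) ⊆ s := by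
    intro x hx
    rw [Complex.mem_reProdIm] at hx
    norm_num [uIcc_of_le] at hx
    constructor
    · rw [abs_lt]; constructor <;> linarith [hx.1.1, hx.1.2]
    · rw [abs_lt]; constructor <;> linarith [hx.2.1, hx.2.2]
  have key := Complex.integral_boundary_rect_eq_zero_of_differentiableOn (dslope F 0)
    (-(1 / 2) + -(1 / 2) * Complex.I) (1 / 2 + 1 / 2 * Complex.I) (hD.mono hsub)
  have e1 : (-(1 / 2) + -(1 / 2) * Complex.I : ℂ).re = -(1 / 2) := by norm_num
  have e2 : (-(1 / 2) + -(1 / 2) * Complex.I : ℂ).im = -(1 / 2) := by norm_num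
  have e3 : (1 / 2 + 1 / 2 * Complex.I : ℂ).re = 1 / 2 := by norm_num
  have e4 : (1 / 2 + 1 / 2 * Complex.I : ℂ).im = 1 / 2 := by norm_num
  rw [e1, e2, e3, e4] at key
  have k1 := res_int (fun x : ℝ => (x : ℂ) + ((-(1 / 2) : ℝ) : ℂ) * Complex.I)
    (fun x : ℝ => (x : ℂ) + ((1 / 2 : ℝ) : ℂ) * Complex.I) Complex.I (dslope F 0) s
    hD.continuousOn (by fun_prop) (by fun_prop) (by
      intro x hx
      constructor <;> constructor <;> simp [abs_lt] <;> (try constructor) <;>
        linarith [hx.1, hx.2]) (by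
      intro x hx
      have n1 : (x : ℂ) + ((-(1 / 2) : ℝ) : ℂ) * Complex.I ≠ 0 := by
        intro h
        have := congrArg Complex.im h
        simp at this
      have n2 : (x : ℂ) + ((1 / 2 : ℝ) : ℂ) * Complex.I ≠ 0 := by
        intro h
        have := congrArg Complex.im h
        simp at this
      have n3 : ((x ^ 2 + 1 / 4 : ℝ) : ℂ) ≠ 0 := by
        rw [Complex.ofReal_ne_zero]; positivity
      rw [hval _ n1, hval _ n2]
      have p : g ((x : ℂ) + ((1 / 2 : ℝ) : ℂ) * Complex.I) =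
          g ((x : ℂ) + ((-(1 / 2) : ℝ) : ℂ) * Complex.I) := by
        have := hp ((x : ℂ) + ((-(1 / 2) : ℝ) : ℂ) * Complex.I) Complex.I ⟨0, 1, by simp⟩
        rw [← this]
        congr 1
        push_cast
        ring
      rw [p, Complex.ofReal_inv]
      rw [add_sub_add_left_eq_sub]
      rw [inv_sub_inv n1 n2, ← div_eq_mul_inv, div_eq_div_iff (mul_ne_zero n1 n2) n3]
      push_cast
      linear_combination ((1 / 4) * Complex.I) * Complex.I_sq)
  have k2 := res_int (fun y : ℝ => ((1 / 2 : ℝ) : ℂ) + (y : ℂ) * Complex.I)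
    (fun y : ℝ => ((-(1 / 2) : ℝ) : ℂ) + (y : ℂ) * Complex.I) 1 (dslope F 0) s
    hD.continuousOn (by fun_prop) (by fun_prop) (by
      intro x hx
      constructor <;> constructor <;> simp [abs_lt] <;> (try constructor) <;>
        linarith [hx.1, hx.2]) (by
      intro x hx
      have n1 : ((1 / 2 : ℝ) : ℂ) + (x : ℂ) * Complex.I ≠ 0 := by
        intro h
        have := congrArg Complex.re h
        simp at this
      have n2 : ((-(1 / 2) : ℝ) : ℂ) + (x : ℂ) * Complex.I ≠ 0 := by
        intro h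
        have := congrArg Complex.re h
        simp at this
      have n3 : ((x ^ 2 + 1 / 4 : ℝ) : ℂ) ≠ 0 := by
        rw [Complex.ofReal_ne_zero]; positivity
      rw [hval _ n1, hval _ n2]
      have p : g (((1 / 2 : ℝ) : ℂ) + (x : ℂ) * Complex.I) =
          g (((-(1 / 2) : ℝ) : ℂ) + (x : ℂ) * Complex.I) := by
        have := hp (((-(1 / 2) : ℝ) : ℂ) + (x : ℂ) * Complex.I) 1 ⟨1, 0, by simp⟩
        rw [← this]
        congr 1
        push_cast
        ring
      rw [p, Complex.ofReal_inv]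
      rw [add_sub_add_left_eq_sub]
      rw [inv_sub_inv n1 n2, ← div_eq_mul_inv, div_eq_div_iff (mul_ne_zero n1 n2) n3]
      push_cast
      linear_combination (-(x : ℂ) ^ 2) * Complex.I_sq)
  have hpos : (0 : ℝ) < ∫ x in (-(1 / 2) : ℝ)..(1 / 2), (x ^ 2 + 1 / 4)⁻¹ := by
    apply intervalIntegral.intervalIntegral_pos_of_pos
    · apply Continuous.intervalIntegrable
      apply Continuous.inv₀ (by fun_prop)
      intro x; positivity
    · intro x; positivity
    · norm_num
  have key2 : Complex.I * ((∫ x in (-(1 / 2) : ℝ)..(1 / 2), (x ^ 2 + 1 / 4)⁻¹ : ℝ) : ℂ) +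
      Complex.I * (1 * ((∫ x in (-(1 / 2) : ℝ)..(1 / 2), (x ^ 2 + 1 / 4)⁻¹ : ℝ) : ℂ)) = 0 := by
    rw [← k1, ← k2, mul_sub]
    simp only [smul_eq_mul] at key
    linear_combination key
  have h3 : ((∫ x in (-(1 / 2) : ℝ)..(1 / 2), (x ^ 2 + 1 / 4)⁻¹ : ℝ) : ℂ) = 0 := by
    have hI : (2 * Complex.I : ℂ) ≠ 0 := by simp
    apply mul_left_cancel₀ hI
    linear_combination key2
  rw [Complex.ofReal_eq_zero] at h3
  exact hpos.ne' h3

end Pool.Agent.Y625.SP
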