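import Pool.Agent.Y395.SP.Stm2

/-!
# SP2-LEV: level sets of the splay cost
-/

set_option autoImplicit false

namespace Pool.Agent.Y625.SPL

open Pool.Agent.H581R2.Splay Pool.Agent.TH49.Spl Pool.Agent.Y395.SP

theorem ofFn_mem {K : Finset ℕ} {m : ℕ} {X : Fin m → ℕ} (hX : X ∈ seqs K m) :
    ∀ x ∈ List.ofFn X, x ∈ K := by
  intro x hx
  rw [List.mem_ofFn] at hx
  obtain ⟨i, rfl⟩ := hx
  exact Fintype.mem_piFinset.mp hX i

theorem card_seqs (K : Finset ℕ) (m : ℕ) : (seqs K m).card = K.card ^ m := by
  unfold seqs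
  rw [Fintype.card_piFinset]
  simp

theorem card_keys {T : Tr} (hT : IsBST T) : (keys T).toFinset.card = (keys T).length :=
  List.toFinset_card_of_nodup (List.Pairwise.imp (fun h => ne_of_lt h) hT)

theorem len_pos {T : Tr} (hne : T ≠ Tr.nil) : 1 ≤ (keys T).length := by
  cases T with
  | nil => exact absurd rfl hne
  | node a l r => simp [keys]; omega

/-- many sequences of small cost -/
theorem low (hU : SUpper) {T : Tr} (hT : IsBST T) (hne : T ≠ Tr.nil) {m : ℕ} (hm1 : 1 ≤ m)
    (hnl : (keys T).length * Real.logb 2 (keys T).length ≤ (m : ℝ)) {S : ℝ}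
    (hS : 16 * (m : ℝ) ≤ S)
    (hS2 : S ≤ 16 * m + 6 * (m * Real.logb 2 (keys T).length)) :
    ∃ F : Finset (Fin m → ℕ), F ⊆ seqs (keys T).toFinset m ∧
      (∀ X ∈ F, (costSplay T (List.ofFn X) : ℝ) ≤ S) ∧
      (2 : ℝ) ^ ((S - 22 * m) / 6) ≤ F.card := by
  have hn1 := len_pos hne
  have hnR : (1 : ℝ) ≤ ((keys T).length : ℝ) := by exact_mod_cast hn1
  have hmR : (1 : ℝ) ≤ (m : ℝ) := by exact_mod_cast hm1
  have h6m : 0 < 6 * (m : ℝ) := by linarith
  obtain ⟨y, hy⟩ : ∃ y : ℝ, y = (2 : ℝ) ^ ((S - 16 * m) / (6 * m)) := ⟨_, rfl⟩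
  have hy1 : 1 ≤ y := by
    rw [hy]
    exact Real.one_le_rpow (by norm_num) (div_nonneg (by linarith) h6m.le)
  have hyn : y ≤ (keys T).length := by
    have h1 : (2 : ℝ) ^ (Real.logb 2 (keys T).length) = (keys T).length :=
      Real.rpow_logb (by norm_num) (by norm_num) (by linarith)
    rw [hy]
    calc (2 : ℝ) ^ ((S - 16 * m) / (6 * m)) ≤ (2 : ℝ) ^ (Real.logb 2 (keys T).length) := by
          refine Real.rpow_le_rpow_of_exponent_le (by norm_num) ?_
          rw [div_le_iff₀ h6m]
          linarith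
      _ = _ := h1
  obtain ⟨k, hk⟩ : ∃ k : ℕ, k = ⌊y⌋₊ := ⟨_, rfl⟩
  have hky : (k : ℝ) ≤ y := by
    rw [hk]
    exact Nat.floor_le (by linarith)
  have hk1 : 1 ≤ k := by
    rw [hk]
    exact Nat.le_floor (by exact_mod_cast hy1)
  have hk1R : (1 : ℝ) ≤ k := by exact_mod_cast hk1
  have hyk : y < k + 1 := by
    rw [hk]
    exact Nat.lt_floor_add_one y
  have hkn : k ≤ (keys T).toFinset.card := by
    rw [card_keys hT]
    exact_mod_cast hky.trans hyn
  obtain ⟨K', hK', hcard⟩ := Finset.exists_subset_card_eq hkn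
  refine ⟨seqs K' m, Fintype.piFinset_subset _ _ fun _ => hK', fun X hX => ?_, ?_⟩
  · have hmem := ofFn_mem hX
    have hup := hU T (List.ofFn X) k hT hne (fun x hx => by
      have := hK' (hmem x hx)
      rwa [List.mem_toFinset] at this) (by
      rw [← hcard]
      refine Finset.card_le_card fun x hx => ?_
      rw [List.mem_toFinset] at hx
      exact hmem x hx) hk1
    rw [List.length_ofFn] at hup
    have hlog : Real.logb 2 k ≤ (S - 16 * m) / (6 * m) := by
      have h1 : Real.logb 2 k ≤ Real.logb 2 y :=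
        Real.logb_le_logb_of_le (by norm_num) (by linarith) hky
      rw [hy, Real.logb_rpow (by norm_num) (by norm_num)] at h1
      exact h1
    rw [le_div_iff₀ h6m] at hlog
    linarith
  · rw [card_seqs, hcard]
    push_cast
    have h1 : y / 2 ≤ k := by linarith
    have h2 : (y / 2) ^ m ≤ (k : ℝ) ^ m := pow_le_pow_left₀ (by linarith) h1 m
    refine le_trans (le_of_eq ?_) h2
    rw [div_pow, hy, ← Real.rpow_natCast ((2 : ℝ) ^ ((S - 16 * m) / (6 * m))) m,
      ← Real.rpow_mul (by norm_num), ← Real.rpow_natCast (2 : ℝ) m,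
      ← Real.rpow_sub (by norm_num)]
    congr 1
    field_simp
    ring

open scoped Classical in
theorem main (hU : SUpper) (hC : SCount) : SLevel := by
  intro T hT hne m B hm
  have hn1 := len_pos hne
  have hnR : (1 : ℝ) ≤ ((keys T).length : ℝ) := by exact_mod_cast hn1
  have hlog0 : 0 ≤ Real.logb 2 (keys T).length := Real.logb_nonneg (by norm_num) hnR
  have hlog2 : Real.logb 2 (2 * (keys T).length) = 1 + Real.logb 2 (keys T).length := by
    rw [Real.logb_mul (by norm_num) (by linarith), Real.logb_self_eq_one (by norm_num)]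
  rw [hlog2, mul_add, mul_one] at hm
  have hnl0 : 0 ≤ ((keys T).length : ℝ) * Real.logb 2 (keys T).length := by positivity
  have hnm : ((keys T).length : ℝ) ≤ m := by linarith
  have hnl : ((keys T).length : ℝ) * Real.logb 2 (keys T).length ≤ m := by linarith
  have hmR : (1 : ℝ) ≤ m := hnR.trans hnm
  have hm1 : 1 ≤ m := by exact_mod_cast hmR
  obtain ⟨S, hS⟩ : ∃ S : ℝ, S = min (B : ℝ) (16 * m + 6 * (m * Real.logb 2 (keys T).length)) :=
    ⟨_, rfl⟩
  have hSB : S ≤ B := by rw [hS]; exact min_le_left _ _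
  have hS2 : S ≤ 16 * m + 6 * (m * Real.logb 2 (keys T).length) := by
    rw [hS]; exact min_le_right _ _
  -- the cost of all sequences of the first set is at most S
  have hcost : ∀ X ∈ seqs (keys T).toFinset m, costSplay T (List.ofFn X) ≤ B →
      (costSplay T (List.ofFn X) : ℝ) ≤ S := by
    intro X hX hXB
    rw [hS]
    refine le_min (by exact_mod_cast hXB) ?_
    have hmem := ofFn_mem hX
    have hup := hU T (List.ofFn X) (keys T).length hT hne (fun x hx => by
      have := hmem x hx
      rwa [List.mem_toFinset] at this) (by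
      rw [← card_keys hT]
      refine Finset.card_le_card fun x hx => ?_
      rw [List.mem_toFinset] at hx
      exact hmem x hx) hn1
    rw [List.length_ofFn] at hup
    linarith
  have hopt : ∀ X : Fin m → ℕ, (m : ℝ) ≤ optAny (keys T) (List.ofFn X) := by
    intro X
    have := len_optAny (T := T) (List.ofFn X)
    rw [List.length_ofFn] at this
    exact_mod_cast this
  rcases le_or_gt S (120 * m) with hc | hc
  · have hE : ((seqs (keys T).toFinset m).filter (fun X => costSplay T (List.ofFn X) ≤ B ∧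
        120 * optAny (keys T) (List.ofFn X) < costSplay T (List.ofFn X))) = ∅ := by
      refine Finset.filter_eq_empty_iff.mpr fun X hX h => ?_
      have h1 := hcost X hX h.1
      have h2 : (120 : ℝ) * optAny (keys T) (List.ofFn X) < costSplay T (List.ofFn X) := by
        exact_mod_cast h.2
      have h3 := hopt X
      linarith
    rw [hE, Finset.card_empty]
    push_cast
    positivity
  · have hE : (((seqs (keys T).toFinset m).filter (fun X => costSplay T (List.ofFn X) ≤ B ∧
        120 * optAny (keys T) (List.ofFn X) < costSplay T (List.ofFn X))).card : ℝ) ≤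
        (2 : ℝ) ^ (10 * (S / 120) + 2 * (keys T).length + 3) := by
      refine le_trans ?_ (hC T hT m (S / 120))
      refine Nat.cast_le.mpr (Finset.card_le_card fun X hX => ?_)
      rw [Finset.mem_filter] at hX ⊢
      refine ⟨hX.1, ?_⟩
      have h1 := hcost X hX.1 hX.2.1
      have h2 : (120 : ℝ) * optAny (keys T) (List.ofFn X) < costSplay T (List.ofFn X) := by
        exact_mod_cast hX.2.2
      linarith
    obtain ⟨F, hF1, hF2, hF3⟩ := low hU hT hne hm1 hnl (by linarith : 16 * (m : ℝ) ≤ S) hS2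
    have hN : (2 : ℝ) ^ ((S - 22 * m) / 6) ≤
        ((seqs (keys T).toFinset m).filter (fun X => costSplay T (List.ofFn X) ≤ B)).card := by
      refine hF3.trans (Nat.cast_le.mpr (Finset.card_le_card fun X hX => ?_))
      rw [Finset.mem_filter]
      exact ⟨hF1 hX, by exact_mod_cast (hF2 X hX).trans hSB⟩
    refine hE.trans (le_trans ?_ (mul_le_mul_of_nonneg_left hN (by positivity)))
    have h1 : (1 / 2 : ℝ) ^ m = (2 : ℝ) ^ (-(m : ℝ)) := by
      rw [Real.rpow_neg (by norm_num), Real.rpow_natCast, one_div, inv_pow]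
    rw [h1, ← Real.rpow_add (by norm_num)]
    refine Real.rpow_le_rpow_of_exponent_le (by norm_num) ?_
    linarith

end Pool.Agent.Y625.SPL
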